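import Pool.Agent.Y299.Shift.Lattice

/-!
# MP_1e8505_an: the chain `1 + *ω + ω + 1` and Halmos's bilateral weighted shift

`W e_n = 2^{-|n|} e_{n+1}` has only the obvious closed invariant subspaces; in particular the chain
`1 + *ω + ω + 1` is attainable.  More generally this holds for every bilateral weighted shift whose
(nonzero complex) weights satisfy `|w_n| ≤ C q^{|n|}` with `q < 1` and have eventually nonincreasing
moduli in both directions.
-/

set_option autoImplicit false

namespace Pool.Agent.Results.MP_1e8505_an.BilateralShift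

open scoped InnerProductSpace

/-- The lattice of closed invariant subspaces of `A`, ordered by inclusion. -/
def InvLat {H : Type*} [NormedAddCommGroup H] [InnerProductSpace ℂ H] (A : H →L[ℂ] H) :
    Set (Submodule ℂ H) :=
  {M | IsClosed (M : Set H) ∧ ∀ v ∈ M, A v ∈ M}

/-- The obvious subspace `M_k`, the closed span of the `e n` with `n ≥ k`. -/
def obvious {H : Type*} [NormedAddCommGroup H] [InnerProductSpace ℂ H] (e : HilbertBasis ℤ ℂ H)
    (k : ℤ) : Submodule ℂ H :=
  (Submodule.span ℂ (e '' {n | k ≤ n})).topologicalClosure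

open Pool.Agent.Y299.Shift

section

variable {H : Type*} [NormedAddCommGroup H] [InnerProductSpace ℂ H] [CompleteSpace H]
  (e : HilbertBasis ℤ ℂ H)

theorem mem_InvLat_iff {w : ℤ → ℂ} (hw : GeoWeights w) {W : H →L[ℂ] H}
    (hW : ∀ n, W (e n) = w n • e (n + 1)) (M : Submodule ℂ H) :
    M ∈ InvLat W ↔ (M = ⊥ ∨ M = ⊤ ∨ ∃ k, M = obvious e k) := by
  constructor
  · rintro ⟨h1, h2⟩
    exact classification e hW hw M h1 h2
  · rintro (rfl | rfl | ⟨k, rfl⟩)
    · refine ⟨by simp, ?_⟩
      intro v hv
      rw [Submodule.mem_bot] at hv ⊢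
      rw [hv, map_zero]
    · exact ⟨by simp, fun v _ => Submodule.mem_top⟩
    · exact ⟨isClosed_Mk e k, Mk_invariant e hW k⟩

/-- The chain of obvious subspaces as a map from `ℤ` with two endpoints. -/
noncomputable def toSub : WithBot (WithTop ℤ) → Submodule ℂ H :=
  WithBot.recBotCoe ⊥ (WithTop.recTopCoe ⊤ (fun k => Mk e (-k)))

omit [CompleteSpace H] in
theorem self_mem (k : ℤ) : e k ∈ Mk e k := by
  rw [mem_Mk]
  intro n hn
  exact e.orthonormal.2 hn.ne

omit [CompleteSpace H] in
theorem self_not_mem {k n : ℤ} (h : n < k) : e n ∉ Mk e k := by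
  rw [mem_Mk]
  intro h1
  have h2 := h1 n h
  simp [e.orthonormal.1] at h2

omit [CompleteSpace H] in
theorem ne_zero (k : ℤ) : e k ≠ 0 := by
  intro h
  have := e.orthonormal.1 k
  rw [h, norm_zero] at this
  exact zero_ne_one this

omit [CompleteSpace H] in
theorem toSub_strictMono : StrictMono (toSub e) := by
  intro a b hab
  induction b using WithBot.recBotCoe with
  | bot => exact absurd hab not_lt_bot
  | coe b =>
    induction a using WithBot.recBotCoe with
    | bot =>
      show (⊥ : Submodule ℂ H) < _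
      rw [bot_lt_iff_ne_bot]
      induction b using WithTop.recTopCoe with
      | top =>
        show (⊤ : Submodule ℂ H) ≠ ⊥
        intro h
        have h1 : e 0 ∈ (⊤ : Submodule ℂ H) := Submodule.mem_top
        rw [h, Submodule.mem_bot] at h1
        exact ne_zero e 0 h1
      | coe k =>
        show Mk e (-k) ≠ ⊥
        intro h
        have h1 := self_mem e (-k)
        rw [h, Submodule.mem_bot] at h1
        exact ne_zero e _ h1
    | coe a =>
      rw [WithBot.coe_lt_coe] at hab
      induction a using WithTop.recTopCoe with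
      | top => exact absurd hab not_top_lt
      | coe j =>
        induction b using WithTop.recTopCoe with
        | top =>
          show Mk e (-j) < ⊤
          rw [lt_top_iff_ne_top]
          intro h
          have h1 : e (-j - 1) ∈ (⊤ : Submodule ℂ H) := Submodule.mem_top
          rw [← h] at h1
          exact self_not_mem e (by omega) h1
        | coe k =>
          rw [WithTop.coe_lt_coe] at hab
          show Mk e (-j) < Mk e (-k)
          rw [lt_iff_le_and_ne]
          constructor
          · intro v hv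
            rw [mem_Mk] at hv ⊢
            intro n hn
            exact hv n (by omega)
          · intro h
            have h1 := self_mem e (-k)
            rw [← h] at h1
            exact self_not_mem e (by omega) h1

theorem orderIso {w : ℤ → ℂ} (hw : GeoWeights w) {W : H →L[ℂ] H}
    (hW : ∀ n, W (e n) = w n • e (n + 1)) : Nonempty (InvLat W ≃o WithBot (WithTop ℤ)) := by
  have hmem : ∀ z, toSub e z ∈ InvLat W := by
    intro z
    rw [mem_InvLat_iff e hw hW]
    induction z using WithBot.recBotCoe with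
    | bot => left; rfl
    | coe z =>
      induction z using WithTop.recTopCoe with
      | top => right; left; rfl
      | coe k => right; right; exact ⟨-k, rfl⟩
  have hsm : StrictMono (fun z => (⟨toSub e z, hmem z⟩ : InvLat W)) := by
    intro a b hab
    exact toSub_strictMono e hab
  have hsurj : Function.Surjective (fun z => (⟨toSub e z, hmem z⟩ : InvLat W)) := by
    rintro ⟨M, hM⟩
    have h1 := (mem_InvLat_iff e hw hW M).mp hM
    rcases h1 with h | h | ⟨k, h⟩
    · exact ⟨⊥, Subtype.ext h.symm⟩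
    · exact ⟨((⊤ : WithTop ℤ) : WithBot (WithTop ℤ)), Subtype.ext h.symm⟩
    · refine ⟨(((-k : ℤ) : WithTop ℤ) : WithBot (WithTop ℤ)), Subtype.ext ?_⟩
      show Mk e (- -k) = M
      rw [neg_neg, h]
      rfl
  exact ⟨(hsm.orderIsoOfSurjective _ hsurj).symm⟩

theorem summable_op (R : ℤ → (H →L[ℂ] H)) (g : ℤ → ℝ) (hg : Summable g) (h : ∀ n, ‖R n‖ ≤ g n) :
    Summable R :=
  Summable.of_norm_bounded hg h

omit [CompleteSpace H] in
theorem sum_apply (R : ℤ → (H →L[ℂ] H)) (hR : Summable R) :
    ∃ W : H →L[ℂ] H, ∀ v, HasSum (fun n => R n v) (W v) := by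
  obtain ⟨W, hW⟩ := hR
  exact ⟨W, fun v => (ContinuousLinearMap.apply ℂ H v).hasSum hW⟩

omit [CompleteSpace H] in
theorem norm_rankOne (w : ℂ) (n m : ℤ) : ‖w • (innerSL ℂ (e n)).smulRight (e m)‖ ≤ ‖w‖ := by
  rw [norm_smul]
  have h1 : ‖(innerSL ℂ (e n)).smulRight (e m)‖ ≤ 1 := by
    apply ContinuousLinearMap.opNorm_le_bound _ zero_le_one
    intro v
    rw [ContinuousLinearMap.smulRight_apply, norm_smul, e.orthonormal.1, mul_one, one_mul,
      innerSL_apply_apply]
    have := norm_inner_le_norm (𝕜 := ℂ) (e n) v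
    rwa [e.orthonormal.1, one_mul] at this
  calc ‖w‖ * ‖(innerSL ℂ (e n)).smulRight (e m)‖ ≤ ‖w‖ * 1 := by gcongr
    _ = ‖w‖ := mul_one _

/-- Existence of the bounded weighted shift for summable weights. -/
theorem exists_shift (w : ℤ → ℂ) (hs : Summable fun n => ‖w n‖) :
    ∃ W : H →L[ℂ] H, ∀ n, W (e n) = w n • e (n + 1) := by
  obtain ⟨W, hW⟩ := sum_apply _ (summable_op _ _ hs (fun n => norm_rankOne e (w n) n (n + 1)))
  refine ⟨W, fun m => ?_⟩
  have h3 : ⟪e m, e m⟫_ℂ = 1 := by simp [e.orthonormal.1]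
  have h2 : HasSum (fun n => (w n • (innerSL ℂ (e n)).smulRight (e (n + 1))) (e m))
      (w m • e (m + 1)) := by
    have h4 : w m • e (m + 1) = (w m • (innerSL ℂ (e m)).smulRight (e (m + 1))) (e m) := by
      simp only [smul_apply, ContinuousLinearMap.smulRight_apply, innerSL_apply_apply]
      rw [h3, one_smul]
    rw [h4]
    apply hasSum_single m
    intro n hn
    simp only [smul_apply, ContinuousLinearMap.smulRight_apply, innerSL_apply_apply]
    rw [e.orthonormal.2 hn, zero_smul, smul_zero]
  exact (hW (e m)).unique h2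

/-- Halmos's weights `2^{-|n|}`. -/
theorem halmos_geo : GeoWeights (fun n : ℤ => (2 : ℂ)⁻¹ ^ n.natAbs) where
  ne_zero n := pow_ne_zero _ (by norm_num)
  bound := by
    refine ⟨1, 2⁻¹, by norm_num, by norm_num, ?_⟩
    intro n
    rw [norm_pow, norm_inv, one_mul]
    simp
  mono := by
    refine ⟨0, ?_, ?_⟩
    · intro n hn
      rw [norm_pow, norm_pow, norm_inv]
      apply pow_le_pow_of_le_one (by simp) (by simp; norm_num)
      push_cast at hn
      omega
    · intro n hn
      rw [norm_pow, norm_pow, norm_inv]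
      apply pow_le_pow_of_le_one (by simp) (by simp; norm_num)
      push_cast at hn
      omega

end

/-- The standard Hilbert basis of `ℓ²(ℤ)`. -/
noncomputable def stdBasis : HilbertBasis ℤ ℂ (lp (fun _ : ℤ => ℂ) 2) :=
  HilbertBasis.ofRepr (LinearIsometryEquiv.refl ℂ _)

/-- **Theorem** (answers Q2 and Q1).

1. Let `e` be a Hilbert basis of a complex Hilbert space `H` indexed by `ℤ` and let
   `W e_n = w_n e_{n+1}` be a bounded weighted shift whose weights are nonzero, satisfy
   `|w_n| ≤ C q^{|n|}` for some `C` and some `q < 1`, and have moduli that are eventually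
   nonincreasing as `n → ∞` and as `n → -∞`.  Then the closed invariant subspaces of `W` are
   exactly `{0}`, `H` and the `M_k`, `k ∈ ℤ`.
2. In particular, for Halmos's shift `W e_n = 2^{-|n|} e_{n+1}` (which exists as a bounded operator)
   `Lat W` is `{{0}, H} ∪ {M_k : k ∈ ℤ}`.
3. The chain `1 + *ω + ω + 1` is attainable by an operator on a separable Hilbert space. -/
theorem result :
    (∀ (H : Type*) [NormedAddCommGroup H] [InnerProductSpace ℂ H] [CompleteSpace H]
        (e : HilbertBasis ℤ ℂ H) (w : ℤ → ℂ) (W : H →L[ℂ] H),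
        (∀ n, w n ≠ 0) →
        (∃ C q : ℝ, 0 < q ∧ q < 1 ∧ ∀ n : ℤ, ‖w n‖ ≤ C * q ^ n.natAbs) →
        (∃ N : ℕ, (∀ n : ℤ, (N : ℤ) ≤ n → ‖w (n + 1)‖ ≤ ‖w n‖) ∧
          (∀ n : ℤ, n ≤ -(N : ℤ) → ‖w (n - 1)‖ ≤ ‖w n‖)) →
        (∀ n, W (e n) = w n • e (n + 1)) →
        InvLat W = {M | M = ⊥ ∨ M = ⊤ ∨ ∃ k, M = obvious e k}) ∧
    (∀ (H : Type*) [NormedAddCommGroup H] [InnerProductSpace ℂ H] [CompleteSpace H]
        (e : HilbertBasis ℤ ℂ H),
        (∃ W : H →L[ℂ] H, ∀ n : ℤ, W (e n) = ((2 : ℂ)⁻¹ ^ n.natAbs) • e (n + 1)) ∧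
        ∀ W : H →L[ℂ] H, (∀ n : ℤ, W (e n) = ((2 : ℂ)⁻¹ ^ n.natAbs) • e (n + 1)) →
          InvLat W = {M | M = ⊥ ∨ M = ⊤ ∨ ∃ k, M = obvious e k} ∧
          Nonempty (InvLat W ≃o WithBot (WithTop ℤ))) ∧
    (∃ (H : Type) (_ : NormedAddCommGroup H) (_ : InnerProductSpace ℂ H) (A : H →L[ℂ] H),
        CompleteSpace H ∧ TopologicalSpace.SeparableSpace H ∧
          Nonempty (InvLat A ≃o WithBot (WithTop ℤ))) := by
  have hsum : Summable fun n : ℤ => ‖(2 : ℂ)⁻¹ ^ n.natAbs‖ := by
    have h1 : Summable fun n : ℕ => ((2 : ℝ)⁻¹) ^ n :=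
      summable_geometric_of_lt_one (by norm_num) (by norm_num)
    refine Summable.of_nat_of_neg ?_ ?_
    · refine h1.congr ?_
      intro n
      simp
    · refine h1.congr ?_
      intro n
      simp
  refine ⟨?_, ?_, ?_⟩
  · intro H _ _ _ e w W h0 h1 h2 hW
    ext M
    exact mem_InvLat_iff e ⟨h0, h1, h2⟩ hW M
  · intro H _ _ _ e
    refine ⟨exists_shift e _ hsum, ?_⟩
    intro W hW
    refine ⟨?_, orderIso e halmos_geo hW⟩
    ext M
    exact mem_InvLat_iff e halmos_geo hW M
  · obtain ⟨W, hW⟩ := exists_shift stdBasis _ hsum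
    refine ⟨lp (fun _ : ℤ => ℂ) 2, inferInstance, inferInstance, W, inferInstance, ?_,
      orderIso stdBasis halmos_geo hW⟩
    have h1 : TopologicalSpace.IsSeparable (Set.range stdBasis) :=
      (Set.countable_range _).isSeparable
    have h2 := (h1.span (R := ℂ)).closure
    have h3 := stdBasis.dense_span
    rw [← TopologicalSpace.isSeparable_univ_iff]
    have h4 : closure (Submodule.span ℂ (Set.range stdBasis) : Set (lp (fun _ : ℤ => ℂ) 2)) =
        Set.univ := by
      rw [← Submodule.topologicalClosure_coe, h3, Submodule.top_coe]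
    rwa [h4] at h2

end Pool.Agent.Results.MP_1e8505_an.BilateralShift
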